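import Pool.Agent.H476Z.ZS.Final

open Polynomial

namespace Pool.Agent.Results.MP_0cd67c_ag.AZeroSumPreserver

/-- The space of real polynomials of degree at most `m` whose coefficient of `t ^ (m - 1)`
vanishes. -/
noncomputable def zeroSumSpace (m : ℕ) : Submodule ℝ ℝ[X] :=
  degreeLE ℝ m ⊓ LinearMap.ker (lcoeff ℝ (m - 1))

/-- `T` is diagonal: `T (t ^ (n - i)) = γ i * t ^ (d - i)` for `i ≤ n`, `i ≠ 1`, `i ≤ d`, and
`T (t ^ (n - i)) = 0` for `d < i ≤ n`. -/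
def IsDiagonal {n d : ℕ} (T : zeroSumSpace n →ₗ[ℝ] zeroSumSpace d) : Prop :=
  ∃ γ : ℕ → ℝ, ∀ i ≤ n, i ≠ 1 → ∀ g : zeroSumSpace n, (g : ℝ[X]) = X ^ (n - i) →
    (T g : ℝ[X]) = if i ≤ d then C (γ i) * X ^ (d - i) else 0

/-- `T` sends real-rooted polynomials to real-rooted polynomials. -/
def IsPreserver {n d : ℕ} (T : zeroSumSpace n →ₗ[ℝ] zeroSumSpace d) : Prop :=
  ∀ g : zeroSumSpace n, (g : ℝ[X]).Splits → (T g : ℝ[X]).Splits

lemma mem_iff {m : ℕ} {g : ℝ[X]} :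
    g ∈ zeroSumSpace m ↔ g.natDegree ≤ m ∧ g.coeff (m - 1) = 0 := by
  simp [zeroSumSpace, mem_degreeLE, natDegree_le_iff_degree_le]

/-- The test polynomial `(t - 1) ^ (n - 1) * (t + n - 1)`. -/
noncomputable def g0 (n : ℕ) (hn : 1 ≤ n) : zeroSumSpace n :=
  ⟨(X - 1) ^ (n - 1) * (X + C ((n : ℝ) - 1)),
    mem_iff.2 ⟨Pool.Agent.H476Z.ZS.g0_natDegree hn, Pool.Agent.H476Z.ZS.g0_coeff hn⟩⟩

theorem result (n d : ℕ) (hn : 1 ≤ n) (hd : 2 ≤ d) (T : zeroSumSpace n →ₗ[ℝ] zeroSumSpace d)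
    (hT : IsDiagonal T) (hreal : (T (g0 n hn) : ℝ[X]).Splits)
    (hsign : d - 1 ≤ Multiset.card ((T (g0 n hn) : ℝ[X]).roots.filter (fun x => 0 ≤ x)) ∨
      d - 1 ≤ Multiset.card ((T (g0 n hn) : ℝ[X]).roots.filter (fun x => x ≤ 0))) :
    IsPreserver T := by
  obtain ⟨γ, hγ⟩ := hT
  have hTf : ∀ g : zeroSumSpace n, (T g : ℝ[X]) = Pool.Agent.H476Z.ZS.Tf n d γ g := by
    intro g
    obtain ⟨h1, h2⟩ := mem_iff.1 g.2
    have hmem : ∀ i ∈ (Finset.range (n + 1)).erase 1, (X ^ (n - i) : ℝ[X]) ∈ zeroSumSpace n := by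
      intro i hi
      simp only [Finset.mem_erase, Finset.mem_range] at hi
      refine mem_iff.2 ⟨by rw [natDegree_X_pow]; omega, ?_⟩
      rw [coeff_X_pow, if_neg (by omega)]
    have e := Pool.Agent.H476Z.ZS.expand_zero_sum hn h1 h2
    have e2 : g = ∑ i ∈ ((Finset.range (n + 1)).erase 1).attach,
        (g : ℝ[X]).coeff (n - i) • (⟨X ^ (n - i), hmem i i.2⟩ : zeroSumSpace n) := by
      apply Subtype.ext
      rw [AddSubmonoidClass.coe_finsetSum]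
      conv_lhs => rw [e, ← Finset.sum_attach]
      rfl
    conv_lhs => rw [e2]
    conv_rhs => rw [e, ← Finset.sum_attach]
    rw [map_sum, map_sum, AddSubmonoidClass.coe_finsetSum]
    refine Finset.sum_congr rfl (fun i _ => ?_)
    have hi := i.2
    simp only [Finset.mem_erase, Finset.mem_range] at hi
    rw [map_smul, map_smul, Submodule.coe_smul, hγ i (by omega) hi.1 _ rfl,
      Pool.Agent.H476Z.ZS.Tf_X_pow n d γ (by omega)]
  intro g hg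
  obtain ⟨h1, h2⟩ := mem_iff.1 g.2
  rw [hTf]
  exact Pool.Agent.H476Z.ZS.Tf_splits hn hd γ (hTf (g0 n hn)) hreal hsign h1 h2 hg

end Pool.Agent.Results.MP_0cd67c_ag.AZeroSumPreserver
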